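import Pool.Agent.V11331.GC.Main

set_option autoImplicit false

/-!
# MP_21b2a2_pr: directional divergence of the critical Gaussian consensus process

`avg` and `cov` are defined in `Pool.Agent.V11331.GC.Rows`, `rmat`, `pmat` and `frob` in
`Pool.Agent.V11331.GC.Lyap`.
-/

open MeasureTheory ProbabilityTheory Filter Topology
open scoped ENNReal RealInnerProductSpace

namespace Pool.Agent.Results.MP_21b2a2_pr.Divergence

open Pool.Agent.V11331.GC

/-- The top Lyapunov exponent of `P(t) = M(t) ⋯ M(1)`, `M(t) = √(ρ/N) G(t) + β I_{N-1}`, with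
`ρ = α (1 - β) ^ 2` and independent `(N-1) × (N-1)` matrices `G(t)` with i.i.d. standard normal
entries, is `lam`: almost surely `log ‖P(t)‖ / t → lam`. -/
def HasTopLyapunov (N : ℕ) (α β lam : ℝ) : Prop :=
  ∀ᵐ ω ∂(Measure.infinitePi fun _ : ℕ × Fin (N - 1) × Fin (N - 1) => gaussianReal 0 1),
    Tendsto (fun t : ℕ =>
      Real.log (frob (pmat (N - 1) β (Real.sqrt (α * (1 - β) ^ 2 / N)) ω t)) / t) atTop (𝓝 lam)

/-- The law of `X(t)` given `X(t-1) = x`: the rows are independent, row `i` is Gaussian with mean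
`β x_i + (1 - β) μ^x` and covariance `ρ Cov^x`, `ρ = α (1 - β) ^ 2`. -/
noncomputable def transition (α β : ℝ) {N d : ℕ} (x : Fin N → EuclideanSpace ℝ (Fin d)) :
    Measure (Fin N → EuclideanSpace ℝ (Fin d)) :=
  Measure.pi fun i =>
    multivariateGaussian (β • x i + (1 - β) • avg x) ((α * (1 - β) ^ 2) • cov x)

/-- `X` is a Markov chain with the transition law `transition α β`, and `Cov^X(0)` is almost surely
positive definite. -/
def IsConsensusProcess {Ω : Type*} [MeasurableSpace Ω] (P : Measure Ω) (α β : ℝ) {N d : ℕ}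
    (X : ℕ → Ω → Fin N → EuclideanSpace ℝ (Fin d)) : Prop :=
  (∀ t, Measurable (X t)) ∧
  (∀ᵐ ω ∂P, (cov (X 0 ω)).PosDef) ∧
  ∀ (t : ℕ) (C : Set (Fin (t + 1) → Fin N → EuclideanSpace ℝ (Fin d))), MeasurableSet C →
    ∀ B : Set (Fin N → EuclideanSpace ℝ (Fin d)), MeasurableSet B →
      P {ω | (fun s : Fin (t + 1) => X s ω) ∈ C ∧ X (t + 1) ω ∈ B} =
        ∫⁻ ω in {ω | (fun s : Fin (t + 1) => X s ω) ∈ C}, transition α β (X t ω) B ∂P

/-- If the top Lyapunov exponent vanishes then `|u · X_i(t)| → ∞` for every `i` and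
`|u · μ^X(t)| → ∞` almost surely. -/
theorem result {N d : ℕ} (hN : 2 ≤ N) (hd : 1 ≤ d) (hNd : d + 1 ≤ N) {α β : ℝ} (hα : 0 < α)
    (hβ0 : 0 ≤ β) (hβ1 : β < 1) (hlam : HasTopLyapunov N α β 0)
    {Ω : Type*} [MeasurableSpace Ω] (P : Measure Ω) [IsProbabilityMeasure P]
    (X : ℕ → Ω → Fin N → EuclideanSpace ℝ (Fin d)) (hX : IsConsensusProcess P α β X)
    (u : EuclideanSpace ℝ (Fin d)) (hu : u ≠ 0) :
    ∀ᵐ ω ∂P, (∀ i, Tendsto (fun t => |⟪u, X t ω i⟫|) atTop atTop) ∧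
      Tendsto (fun t => |⟪u, avg (X t ω)⟫|) atTop atTop := by
  obtain ⟨n, rfl⟩ : ∃ n, N = n + 1 := ⟨N - 1, by omega⟩
  have hn : NeZero n := ⟨by omega⟩
  obtain ⟨h1, h2, h3⟩ := hX
  have hc : 0 < Real.sqrt (α * (1 - β) ^ 2 / ((n + 1 : ℕ) : ℝ)) := by
    have : 0 < 1 - β := by linarith
    apply Real.sqrt_pos.2
    positivity
  have hmean := mean_zero (n := n) β _ hc hlam
  exact main hα hβ1 hmean P X h1 h2 h3 u hu

end Pool.Agent.Results.MP_21b2a2_pr.Divergence
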